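import Pool.Agent.Q22.SP.ALL

/-!
# A nef and big class on a compact Kähler surface without smooth semipositive representative

The surface `Y` is the blow-up of `B × ℙ¹`, where `B = ℂ / ℤ[i]` (coordinate `x`) and `ℙ¹` has the
coordinate `y`, at the point `(0, 0)` and at the point of the exceptional curve which is the direction
of the curve `y = x`. It is constructed as a complex manifold from five systems of coordinates. The
class of `θ` is `F - E₁ - E₂ + 3 H`, where `F` is the class of the fibre `x = 0`, `H` the class of
`B × {point}` and `E₁`, `E₂` are the total transforms of the two exceptional curves. It has
self-intersection `4`, and degree `0` on the strict transform `C` of the elliptic curve `y = 0` and on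
the strict transform of the first exceptional curve. A semipositive form in the class
vanishes on these two curves; this forces the normal derivative of a potential along `C` to be an
elliptic function with one simple pole, which does not exist.
-/

set_option autoImplicit false

open Set Topology Filter
open scoped ContDiff Manifold

namespace Pool.Agent.Results.MP_4ff127_gt.NoSemipositiveRepresentative

open Pool.Agent.Q22.SP

/-- There is a compact connected complex manifold `Y` of dimension two with a Kähler form `Ω` and a
smooth closed real `(1,1)`-form `θ` whose class is nef and big (with a Kähler current
which is smooth outside a closed set with dense complement and whose potential tends to `-∞` at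
this set), such that no form `θ + dd^c u`, `u` a smooth real function on `Y`, is semipositive. -/
theorem result : ∃ (Y : Type) (_ : TopologicalSpace Y) (_ : ChartedSpace (ℂ × ℂ) Y),
    IsManifold 𝓘(ℂ, ℂ × ℂ) ω Y ∧ T2Space Y ∧ CompactSpace Y ∧ ConnectedSpace Y ∧
    ∃ Ω θ : Form Y, Ω.IsKahler ∧ IsNef Ω θ ∧ (∃ A : Set Y, BigOff Ω θ A) ∧ ¬ HasSemipositive θ :=
  final

end Pool.Agent.Results.MP_4ff127_gt.NoSemipositiveRepresentative
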